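import Pool.Agent.H82.FP.Targets

/-!
# The vertex of a four-star (row KG of the board `flp_modules`)
-/

set_option autoImplicit false

namespace Pool.Agent.H68.FP

open MeasureTheory Set
open Pool.Agent.H83.G
open Pool.Agent.H22.G4 (nv Ind)
open Pool.Agent.H82.FP
open scoped ENNReal NNReal RealInnerProductSpace

/-- half the value of the bilinear form at `z` and the direction of `η` -/
private noncomputable def lp (z : Z 2) (η : E 2) : ℝ := z.1 + ⟪z.2.1, η⟫ + z.2.2 * ‖η‖ ^ 2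

/-- the bilinear form -/
private noncomputable def Bf (z z' : Z 2) : ℝ :=
  2 * (z.1 * z'.2.2 + z'.1 * z.2.2) - ⟪z.2.1, z'.2.1⟫

private lemma Bf_Dv (z : Z 2) (η : E 2) : Bf z (Dv η) = 2 * lp z η := by
  simp only [Bf, Dv, lp, inner_smul_right]
  ring

private lemma Bf_Dv_Dv (η : E 2) : Bf (Dv η) (Dv η) = 0 := by
  rw [Bf_Dv]
  simp only [Dv, lp, inner_smul_left, real_inner_self_eq_norm_sq]
  simp
  ring

private lemma Bf_comm (z z' : Z 2) : Bf z z' = Bf z' z := by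
  simp only [Bf]
  rw [real_inner_comm]
  ring

private lemma Bf_add_left (a b c : Z 2) : Bf (a + b) c = Bf a c + Bf b c := by
  simp only [Bf, Prod.fst_add, Prod.snd_add, inner_add_left]
  ring

private lemma Bf_smul_left (t : ℝ) (a c : Z 2) : Bf (t • a) c = t * Bf a c := by
  simp only [Bf, Prod.smul_fst, Prod.smul_snd, real_inner_smul_left, smul_eq_mul]
  ring

private lemma Bf_add_right (a b c : Z 2) : Bf c (a + b) = Bf c a + Bf c b := by
  rw [Bf_comm, Bf_add_left, Bf_comm a, Bf_comm b]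

private lemma Bf_smul_right (t : ℝ) (a c : Z 2) : Bf c (t • a) = t * Bf c a := by
  rw [Bf_comm, Bf_smul_left, Bf_comm]

private lemma fst_le (z : Z 2) : |z.1| ≤ ‖z‖ := norm_fst_le z

private lemma mid_le (z : Z 2) : ‖z.2.1‖ ≤ ‖z‖ := (norm_fst_le z.2).trans (norm_snd_le z)

private lemma snd_le (z : Z 2) : |z.2.2| ≤ ‖z‖ := (norm_snd_le z.2).trans (norm_snd_le z)

private lemma Bf_le (z z' : Z 2) : |Bf z z'| ≤ 5 * ‖z‖ * ‖z'‖ := by
  have h1 := abs_mul z.1 z'.2.2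
  have h2 := abs_mul z'.1 z.2.2
  have h3 : |z.1| * |z'.2.2| ≤ ‖z‖ * ‖z'‖ :=
    mul_le_mul (fst_le z) (snd_le z') (abs_nonneg _) (norm_nonneg _)
  have h4 : |z'.1| * |z.2.2| ≤ ‖z'‖ * ‖z‖ :=
    mul_le_mul (fst_le z') (snd_le z) (abs_nonneg _) (norm_nonneg _)
  have h5 : |⟪z.2.1, z'.2.1⟫| ≤ ‖z‖ * ‖z'‖ :=
    (abs_real_inner_le_norm _ _).trans
      (mul_le_mul (mid_le z) (mid_le z') (norm_nonneg _) (norm_nonneg _))
  have h6 : |Bf z z'| ≤ 2 * (|z.1 * z'.2.2| + |z'.1 * z.2.2|) + |⟪z.2.1, z'.2.1⟫| := by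
    unfold Bf
    calc |2 * (z.1 * z'.2.2 + z'.1 * z.2.2) - ⟪z.2.1, z'.2.1⟫|
        ≤ |2 * (z.1 * z'.2.2 + z'.1 * z.2.2)| + |⟪z.2.1, z'.2.1⟫| := abs_sub _ _
      _ = 2 * |z.1 * z'.2.2 + z'.1 * z.2.2| + |⟪z.2.1, z'.2.1⟫| := by
          rw [abs_mul, abs_two]
      _ ≤ _ := by
          have := abs_add_le (z.1 * z'.2.2) (z'.1 * z.2.2)
          linarith
  rw [h1, h2] at h6
  linarith [mul_comm ‖z'‖ ‖z‖]

private lemma lp_le (z : Z 2) (η : E 2) (hη : ‖η‖ ≤ 3) : |lp z η| ≤ 13 * ‖z‖ := by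
  have h0 := norm_nonneg η
  have h5 : |⟪z.2.1, η⟫| ≤ ‖z‖ * 3 :=
    (abs_real_inner_le_norm _ _).trans
      (mul_le_mul (mid_le z) hη (norm_nonneg _) (norm_nonneg _))
  have h6 : |z.2.2 * ‖η‖ ^ 2| ≤ ‖z‖ * 9 := by
    rw [abs_mul, abs_of_nonneg (sq_nonneg ‖η‖)]
    exact mul_le_mul (snd_le z) (by nlinarith) (sq_nonneg _) (norm_nonneg _)
  have h7 : |lp z η| ≤ |z.1| + |⟪z.2.1, η⟫| + |z.2.2 * ‖η‖ ^ 2| := by
    unfold lp
    exact (abs_add_le _ _).trans (add_le_add (abs_add_le _ _) le_rfl)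
  have := fst_le z
  linarith

private lemma Dv_le (η : E 2) (hη : ‖η‖ ≤ 3) : ‖Dv η‖ ≤ 9 := by
  have h0 := norm_nonneg η
  simp only [Dv, Prod.norm_def]
  refine max_le ?_ (max_le ?_ ?_)
  · rw [Real.norm_eq_abs, abs_of_nonneg (sq_nonneg _)]
    nlinarith
  · rw [norm_smul]
    simp only [norm_neg, Real.norm_ofNat]
    linarith
  · rw [norm_one]
    norm_num

/-- the pairing -/
private noncomputable def pr (w : Z 2) : Z 2 →ₗ[ℝ] ℝ where
  toFun z := w.1 * z.1 + ⟪w.2.1, z.2.1⟫ + w.2.2 * z.2.2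
  map_add' a b := by
    simp only [Prod.fst_add, Prod.snd_add, inner_add_right]
    ring
  map_smul' t a := by
    simp only [Prod.smul_fst, Prod.smul_snd, real_inner_smul_right, smul_eq_mul, RingHom.id_apply]
    ring

private lemma pr_nv (w : Z 2) (η : E 2) : pr w (nv η) = lp w η := by
  simp only [pr, lp, nv, LinearMap.coe_mk, AddHom.coe_mk]
  ring

private lemma finrank_Z : Module.finrank ℝ (Z 2) = 4 := by
  simp [Module.finrank_prod]

/-- a vector is controlled by its products with four independent directions -/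
private lemma norm_le_of_lp (P : ℝ) (hP : 1 ≤ P) (η : Fin 4 → E 2) (hInd : Ind P⁻¹ η) (w : Z 2)
    (τ : ℝ) (hw : ∀ i, |lp w (η i)| ≤ τ) : ‖w‖ ≤ P * τ := by
  have hP0 : 0 < P := by linarith
  have hτ : 0 ≤ τ := (abs_nonneg _).trans (hw 0)
  let T : (Fin 4 → ℝ) →ₗ[ℝ] Z 2 := Fintype.linearCombination ℝ (fun i => nv (η i))
  have hT : ∀ a, T a = ∑ i, a i • nv (η i) := fun a => Fintype.linearCombination_apply ℝ _ a
  have hinj : Function.Injective T := by
    rw [← LinearMap.ker_eq_bot, LinearMap.ker_eq_bot']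
    intro a ha
    have h1 := hInd a
    rw [← hT, ha, norm_zero] at h1
    have h2 : ∑ i, |a i| ≤ 0 := by
      by_contra hcon
      rw [not_le] at hcon
      have : 0 < P⁻¹ * ∑ i, |a i| := mul_pos (inv_pos.mpr hP0) hcon
      linarith
    have h3 : ∑ i, |a i| = 0 := le_antisymm h2 (Finset.sum_nonneg fun i _ => abs_nonneg _)
    funext i
    have h4 := (Finset.sum_eq_zero_iff_of_nonneg (fun i _ => abs_nonneg (a i))).mp h3 i
      (Finset.mem_univ i)
    exact abs_eq_zero.mp h4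
  have hfr : Module.finrank ℝ (Fin 4 → ℝ) = Module.finrank ℝ (Z 2) := by
    rw [finrank_Z]
    simp
  have hsurj : Function.Surjective T :=
    (LinearMap.injective_iff_surjective_of_finrank_eq_finrank hfr).mp hinj
  have key : ∀ z : Z 2, |pr w z| ≤ P * ‖z‖ * τ := by
    intro z
    obtain ⟨a, rfl⟩ := hsurj z
    have h1 := hInd a
    rw [← hT] at h1
    have h2 : ∑ i, |a i| ≤ P * ‖T a‖ := by
      have := mul_le_mul_of_nonneg_left h1 hP0.le
      rwa [← mul_assoc, mul_inv_cancel₀ hP0.ne', one_mul] at this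
    have h3 : pr w (T a) = ∑ i, a i * lp w (η i) := by
      rw [hT, map_sum]
      apply Finset.sum_congr rfl
      intro i _
      rw [map_smul, pr_nv, smul_eq_mul]
    rw [h3]
    calc |∑ i, a i * lp w (η i)| ≤ ∑ i, |a i * lp w (η i)| := Finset.abs_sum_le_sum_abs _ _
      _ ≤ ∑ i, |a i| * τ := by
          apply Finset.sum_le_sum
          intro i _
          rw [abs_mul]
          exact mul_le_mul_of_nonneg_left (hw i) (abs_nonneg _)
      _ = (∑ i, |a i|) * τ := by rw [Finset.sum_mul]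
      _ ≤ _ := mul_le_mul_of_nonneg_right h2 hτ
  rw [Prod.norm_def, Prod.norm_def]
  refine max_le ?_ (max_le ?_ ?_)
  · have h1 := key (1, 0, 0)
    have h2 : ‖((1, 0, 0) : Z 2)‖ = 1 := by simp [Prod.norm_def]
    rw [h2] at h1
    have h3 : pr w (1, 0, 0) = w.1 := by
      simp [pr]
    rw [h3] at h1
    rw [Real.norm_eq_abs]
    linarith
  · have h1 := key (0, w.2.1, 0)
    have h2 : ‖((0, w.2.1, 0) : Z 2)‖ = ‖w.2.1‖ := by simp [Prod.norm_def]
    rw [h2] at h1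
    have h3 : pr w (0, w.2.1, 0) = ‖w.2.1‖ ^ 2 := by
      simp [pr]
    rw [h3, abs_of_nonneg (sq_nonneg _)] at h1
    rcases (norm_nonneg w.2.1).eq_or_lt with h4 | h4
    · rw [← h4]
      positivity
    · have h5 : ‖w.2.1‖ * ‖w.2.1‖ ≤ (P * τ) * ‖w.2.1‖ := by nlinarith
      exact le_of_mul_le_mul_right h5 h4
  · have h1 := key (0, 0, 1)
    have h2 : ‖((0, 0, 1) : Z 2)‖ = 1 := by simp [Prod.norm_def]
    rw [h2] at h1
    have h3 : pr w (0, 0, 1) = w.2.2 := by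
      simp [pr]
    rw [h3] at h1
    rw [Real.norm_eq_abs]
    linarith

/-- a vector with prescribed products -/
private lemma exists_lp (P : ℝ) (hP : 1 ≤ P) (η : Fin 4 → E 2) (hInd : Ind P⁻¹ η)
    (g : Fin 4 → ℝ) : ∃ w : Z 2, ∀ i, lp w (η i) = g i := by
  let L : Z 2 →ₗ[ℝ] (Fin 4 → ℝ) :=
    { toFun := fun w i => lp w (η i)
      map_add' := by
        intro a b
        funext i
        simp only [lp, Prod.fst_add, Prod.snd_add, inner_add_left, Pi.add_apply]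
        ring
      map_smul' := by
        intro t a
        funext i
        simp only [lp, Prod.smul_fst, Prod.smul_snd, real_inner_smul_left, smul_eq_mul,
          Pi.smul_apply, RingHom.id_apply]
        ring }
  have hL : ∀ w i, L w i = lp w (η i) := fun w i => rfl
  have hinj : Function.Injective L := by
    rw [← LinearMap.ker_eq_bot, LinearMap.ker_eq_bot']
    intro w hw
    have h1 := norm_le_of_lp P hP η hInd w 0 (fun i => by
      rw [← hL, hw]
      simp)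
    rw [mul_zero] at h1
    exact norm_le_zero_iff.mp h1
  have hfr : Module.finrank ℝ (Z 2) = Module.finrank ℝ (Fin 4 → ℝ) := by
    rw [finrank_Z]
    simp
  have hsurj : Function.Surjective L :=
    (LinearMap.injective_iff_surjective_of_finrank_eq_finrank hfr).mp hinj
  obtain ⟨w, hw⟩ := hsurj g
  exact ⟨w, fun i => by rw [← hL, hw]⟩

/-- the form at the difference of the vertex and an end -/
private lemma Q_le (P ρ : ℝ) (hP : 1 ≤ P) (hρ : 1 ≤ ρ) (a : Z 2) (t : ℝ) (η : E 2)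
    (hη : ‖η‖ ≤ 3) (ht : |t| ≤ P * ρ ^ 2) (ha : ‖a - t • Dv η‖ ≤ P * ρ) :
    |Bf a a| ≤ 95 * P ^ 2 * ρ ^ 3 := by
  obtain ⟨e, he⟩ : ∃ e, e = a - t • Dv η := ⟨_, rfl⟩
  have hae : a = t • Dv η + e := by rw [he]; abel
  rw [← he] at ha
  have h1 : Bf a a = 2 * (t * Bf e (Dv η)) + Bf e e := by
    rw [hae]
    simp only [Bf_add_left, Bf_add_right, Bf_smul_left, Bf_smul_right, Bf_Dv_Dv]
    rw [Bf_comm (Dv η) e]
    ring
  have hD := Dv_le η hη
  have hD0 := norm_nonneg (Dv η)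
  have he0 := norm_nonneg e
  have h2 : |Bf e (Dv η)| ≤ 45 * (P * ρ) := by
    have := Bf_le e (Dv η)
    have h3 : 5 * ‖e‖ * ‖Dv η‖ ≤ 5 * (P * ρ) * 9 := by gcongr
    linarith
  have h3 : |t * Bf e (Dv η)| ≤ P * ρ ^ 2 * (45 * (P * ρ)) := by
    rw [abs_mul]
    exact mul_le_mul ht h2 (abs_nonneg _) (by positivity)
  have h4 : |Bf e e| ≤ 5 * (P * ρ) * (P * ρ) := by
    refine (Bf_le e e).trans ?_
    gcongr
  have h5 : |Bf a a| ≤ 2 * |t * Bf e (Dv η)| + |Bf e e| := by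
    rw [h1]
    refine (abs_add_le _ _).trans ?_
    rw [abs_mul, abs_two]
  have h6 : P ^ 2 * ρ ^ 2 ≤ P ^ 2 * ρ ^ 3 := by
    apply mul_le_mul_of_nonneg_left _ (by positivity)
    nlinarith [sq_nonneg ρ]
  nlinarith

theorem pf_KG : T_KG := by
  refine ⟨800000, 10, by norm_num, by norm_num, ?_⟩
  intro P R x S hP hR hS
  have hP0 : 0 < P := by linarith
  obtain ⟨ρ, hρ⟩ : ∃ ρ : ℝ, ρ = R ^ (1 / 2 : ℝ) := ⟨_, rfl⟩
  have hρ1 : 1 ≤ ρ := by
    rw [hρ]
    exact Real.one_le_rpow hR (by norm_num)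
  have hρ0 : 0 < ρ := by linarith
  have hR2 : R = ρ ^ 2 := by
    rw [hρ, ← Real.rpow_natCast, ← Real.rpow_mul (by linarith)]
    norm_num
  have hP10 : P ^ (10 : ℝ) = P ^ (10 : ℕ) := by
    rw [← Real.rpow_natCast]
    norm_num
  rw [← hρ, hP10]
  rw [← hρ, hR2] at hS
  by_cases hne : S.Nonempty
  swap
  · rw [Set.not_nonempty_iff_eq_empty] at hne
    exact ⟨fun _ => 0, fun p hp => by rw [hne] at hp; exact absurd hp (Set.notMem_empty _)⟩
  obtain ⟨p0, hp0⟩ := hne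
  obtain ⟨η, t, hInd, hηt⟩ := hS p0 hp0
  have ht0 : ∀ i, t i ≠ 0 := by
    intro i h
    have h1 := (hηt i).2.1
    rw [h, abs_zero] at h1
    have : 0 < ρ ^ 2 / P := by positivity
    linarith
  obtain ⟨om, hom⟩ := exists_lp P hP η hInd (fun i => (t i)⁻¹)
  have htinv : ∀ i, |(t i)⁻¹| ≤ P / ρ ^ 2 := by
    intro i
    rw [abs_inv]
    have h1 := (hηt i).2.1
    have h2 : 0 < ρ ^ 2 / P := by positivity
    calc |t i|⁻¹ ≤ (ρ ^ 2 / P)⁻¹ := by
          apply inv_anti₀ h2 h1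
      _ = P / ρ ^ 2 := by rw [inv_div]
  have hom_le : ‖om‖ ≤ P ^ 2 / ρ ^ 2 := by
    have h1 := norm_le_of_lp P hP η hInd om (P / ρ ^ 2) (fun i => by rw [hom]; exact htinv i)
    calc ‖om‖ ≤ P * (P / ρ ^ 2) := h1
      _ = _ := by ring
  obtain ⟨qo, hqo⟩ : ∃ q : ℝ, q = Bf om om := ⟨_, rfl⟩
  refine ⟨![p0, p0 - (4 / qo) • om], ?_⟩
  intro p hp
  obtain ⟨η', t', _, hηt'⟩ := hS p hp
  obtain ⟨z, hz⟩ : ∃ z, z = p - p0 := ⟨_, rfl⟩
  -- the size of `z`
  have hsz : ∀ (a : Z 2) (t : ℝ) (η : E 2), ‖η‖ ≤ 3 → |t| ≤ P * ρ ^ 2 →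
      ‖a - t • Dv η‖ ≤ P * ρ → ‖a‖ ≤ 10 * (P * ρ ^ 2) := by
    intro a t η h1 h2 h3
    have h4 : ‖a‖ ≤ ‖a - t • Dv η‖ + ‖t • Dv η‖ := by
      have := norm_add_le (a - t • Dv η) (t • Dv η)
      rwa [sub_add_cancel] at this
    have h5 : ‖t • Dv η‖ ≤ P * ρ ^ 2 * 9 := by
      rw [norm_smul, Real.norm_eq_abs]
      exact mul_le_mul h2 (Dv_le η h1) (norm_nonneg _) (by positivity)
    have h6 : P * ρ ≤ P * ρ ^ 2 := by
      apply mul_le_mul_of_nonneg_left _ hP0.le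
      nlinarith
    linarith
  have hz_le : ‖z‖ ≤ 20 * (P * ρ ^ 2) := by
    have h1 := hsz (p - x 0) (t' 0) (η' 0) (hηt' 0).1 (hηt' 0).2.2.1 (hηt' 0).2.2.2
    have h2 := hsz (p0 - x 0) (t 0) (η 0) (hηt 0).1 (hηt 0).2.2.1 (hηt 0).2.2.2
    have h3 : z = (p - x 0) - (p0 - x 0) := by rw [hz]; abel
    rw [h3]
    refine (norm_sub_le _ _).trans ?_
    linarith
  have hz0 := norm_nonneg z
  -- the equations
  have hmain : ∀ i, |Bf z z + 4 * (t i * lp z (η i))| ≤ 390 * P ^ 2 * ρ ^ 3 := by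
    intro i
    have h1 := Q_le P ρ hP hρ1 (p - x i) (t' i) (η' i) (hηt' i).1 (hηt' i).2.2.1 (hηt' i).2.2.2
    have h2 := Q_le P ρ hP hρ1 (p0 - x i) (t i) (η i) (hηt i).1 (hηt i).2.2.1 (hηt i).2.2.2
    obtain ⟨e, he⟩ : ∃ e, e = p0 - x i - t i • Dv (η i) := ⟨_, rfl⟩
    have he_le : ‖e‖ ≤ P * ρ := by rw [he]; exact (hηt i).2.2.2
    have h3 : p - x i = z + (p0 - x i) := by rw [hz]; abel
    have h4 : p0 - x i = t i • Dv (η i) + e := by rw [he]; abel
    have h5 : Bf (p - x i) (p - x i) = Bf z z + 2 * Bf z (p0 - x i) + Bf (p0 - x i) (p0 - x i) := by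
      rw [h3]
      simp only [Bf_add_left, Bf_add_right]
      rw [Bf_comm (p0 - x i) z]
      ring
    have h6 : Bf z (p0 - x i) = 2 * (t i * lp z (η i)) + Bf z e := by
      rw [h4, Bf_add_right, Bf_smul_right, Bf_Dv]
      ring
    have h7 : |Bf z e| ≤ 100 * P ^ 2 * ρ ^ 3 := by
      refine (Bf_le z e).trans ?_
      calc 5 * ‖z‖ * ‖e‖ ≤ 5 * (20 * (P * ρ ^ 2)) * (P * ρ) := by gcongr
        _ = _ := by ring
    have h8 : Bf z z + 4 * (t i * lp z (η i)) =
        Bf (p - x i) (p - x i) - Bf (p0 - x i) (p0 - x i) - 2 * Bf z e := by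
      rw [h5, h6]
      ring
    rw [h8]
    rw [abs_le] at h1 h2 h7 ⊢
    constructor <;> linarith [h1.1, h1.2, h2.1, h2.2, h7.1, h7.2]
  obtain ⟨β, hβ⟩ : ∃ β : ℝ, β = t 0 * lp z (η 0) := ⟨_, rfl⟩
  have hβ_le : |β| ≤ 260 * P ^ 2 * ρ ^ 4 := by
    rw [hβ, abs_mul]
    calc |t 0| * |lp z (η 0)| ≤ (P * ρ ^ 2) * (13 * (20 * (P * ρ ^ 2))) := by
          apply mul_le_mul (hηt 0).2.2.1 _ (abs_nonneg _) (by positivity)
          refine (lp_le z (η 0) (hηt 0).1).trans ?_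
          linarith
      _ = _ := by ring
  obtain ⟨r, hr⟩ : ∃ r, r = z - β • om := ⟨_, rfl⟩
  have hlin : ∀ (a b : Z 2) (s : ℝ) (η : E 2), lp (a - s • b) η = lp a η - s * lp b η := by
    intro a b s η
    simp only [lp, Prod.fst_sub, Prod.snd_sub, Prod.smul_fst, Prod.smul_snd, inner_sub_left,
      real_inner_smul_left, smul_eq_mul]
    ring
  have hr_le : ‖r‖ ≤ 195 * P ^ 4 * ρ := by
    have h1 := norm_le_of_lp P hP η hInd r (195 * P ^ 3 * ρ) (fun i => by
      rw [hr, hlin, hom]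
      have h2 := hmain i
      have h3 := hmain 0
      rw [← hβ] at h3
      have h4 : |t i * lp z (η i) - β| ≤ 195 * P ^ 2 * ρ ^ 3 := by
        rw [abs_le] at h2 h3 ⊢
        constructor <;> linarith [h2.1, h2.2, h3.1, h3.2]
      have h5 : lp z (η i) - β * (t i)⁻¹ = (t i)⁻¹ * (t i * lp z (η i) - β) := by
        have := ht0 i
        field_simp
      rw [h5, abs_mul]
      calc |(t i)⁻¹| * |t i * lp z (η i) - β| ≤ (P / ρ ^ 2) * (195 * P ^ 2 * ρ ^ 3) :=
            mul_le_mul (htinv i) h4 (abs_nonneg _) (by positivity)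
        _ = _ := by
            field_simp)
    calc ‖r‖ ≤ P * (195 * P ^ 3 * ρ) := h1
      _ = _ := by ring
  have hr0 := norm_nonneg r
  have hom0 := norm_nonneg om
  have hzr : z = β • om + r := by rw [hr]; abel
  have hquad : |β * (β * qo + 4)| ≤ 700000 * P ^ 8 * ρ ^ 3 := by
    have h1 := hmain 0
    rw [← hβ] at h1
    have h2 : Bf z z = β ^ 2 * qo + 2 * (β * Bf om r) + Bf r r := by
      rw [hzr, hqo]
      simp only [Bf_add_left, Bf_add_right, Bf_smul_left, Bf_smul_right]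
      rw [Bf_comm r om]
      ring
    have h3 : |β * Bf om r| ≤ 253500 * P ^ 8 * ρ ^ 3 := by
      rw [abs_mul]
      calc |β| * |Bf om r| ≤ (260 * P ^ 2 * ρ ^ 4) * (5 * (P ^ 2 / ρ ^ 2) * (195 * P ^ 4 * ρ)) := by
            apply mul_le_mul hβ_le _ (abs_nonneg _) (by positivity)
            refine (Bf_le om r).trans ?_
            gcongr
        _ = _ := by
            field_simp
            ring
    have h4 : |Bf r r| ≤ 190125 * P ^ 8 * ρ ^ 3 := by
      refine (Bf_le r r).trans ?_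
      calc 5 * ‖r‖ * ‖r‖ ≤ 5 * (195 * P ^ 4 * ρ) * (195 * P ^ 4 * ρ) := by gcongr
        _ = 190125 * P ^ 8 * ρ ^ 2 := by ring
        _ ≤ 190125 * P ^ 8 * ρ ^ 3 := by
            apply mul_le_mul_of_nonneg_left _ (by positivity)
            nlinarith [sq_nonneg ρ]
    have h5 : P ^ 2 * ρ ^ 3 ≤ P ^ 8 * ρ ^ 3 := by
      apply mul_le_mul_of_nonneg_right _ (by positivity)
      exact pow_le_pow_right₀ hP (by norm_num)
    have h6 : β * (β * qo + 4) = (Bf z z + 4 * β) - 2 * (β * Bf om r) - Bf r r := by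
      rw [h2]
      ring
    rw [h6]
    rw [abs_le] at h1 h3 h4 ⊢
    constructor <;> linarith [h1.1, h1.2, h3.1, h3.2, h4.1, h4.2]
  have hfin : ∀ s : ℝ, |s| ≤ 700000 * P ^ 8 * ρ ^ 3 → ‖s • om + r‖ ≤ 800000 * P ^ 10 * ρ := by
    intro s hs
    have h1 : ‖s • om‖ ≤ 700000 * P ^ 10 * ρ := by
      rw [norm_smul, Real.norm_eq_abs]
      calc |s| * ‖om‖ ≤ (700000 * P ^ 8 * ρ ^ 3) * (P ^ 2 / ρ ^ 2) :=
            mul_le_mul hs hom_le hom0 (by positivity)
        _ = _ := by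
            field_simp
    have h2 : P ^ 4 * ρ ≤ P ^ 10 * ρ := by
      apply mul_le_mul_of_nonneg_right _ hρ0.le
      exact pow_le_pow_right₀ hP (by norm_num)
    have h3 : 0 ≤ P ^ 10 * ρ := by positivity
    refine (norm_add_le _ _).trans ?_
    linarith
  have hbig : 0 ≤ 700000 * P ^ 8 * ρ ^ 3 := by positivity
  by_cases hcase : 1 ≤ |β * qo + 4|
  · refine ⟨0, ?_⟩
    have h1 : |β| ≤ 700000 * P ^ 8 * ρ ^ 3 := by
      rw [abs_mul] at hquad
      have := abs_nonneg β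
      nlinarith
    have h2 := hfin β h1
    rw [← hzr, hz] at h2
    simpa using h2
  · refine ⟨1, ?_⟩
    rw [not_le] at hcase
    have h1 : 1 < |β * qo| := by
      have h2 : (4 : ℝ) ≤ |β * qo + 4| + |β * qo| := by
        have h3 := abs_sub (β * qo + 4) (β * qo)
        have h4 : β * qo + 4 - β * qo = 4 := by ring
        rw [h4] at h3
        have h5 : |(4 : ℝ)| = 4 := by norm_num
        linarith
      linarith
    have hqne : qo ≠ 0 := by
      intro h
      rw [h, mul_zero, abs_zero] at h1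
      linarith
    have hβne : β ≠ 0 := by
      intro h
      rw [h, zero_mul, abs_zero] at h1
      linarith
    have h2 : |β + 4 / qo| ≤ 700000 * P ^ 8 * ρ ^ 3 := by
      have h3 : β + 4 / qo = (β * (β * qo + 4)) / (β * qo) := by
        field_simp
      rw [h3, abs_div]
      rw [div_le_iff₀ (by linarith)]
      nlinarith
    have h3 := hfin (β + 4 / qo) h2
    have h4 : p - (p0 - (4 / qo) • om) = (β + 4 / qo) • om + r := by
      have h5 : p = p0 + z := by rw [hz]; abel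
      rw [h5, hzr, add_smul]
      abel
    rw [← h4] at h3
    simpa using h3

end Pool.Agent.H68.FP
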