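import Pool.Agent.H82.FP.Targets

/-!
# Multilinear Kakeya for light rays, larger caps (row MKA of the board `flp_modules`)
-/

set_option autoImplicit false

namespace Pool.Agent.H68.FP

open MeasureTheory Set
open Pool.Agent.H83.G
open Pool.Agent.H22.G4 (nv Ind)
open Pool.Agent.H82.FP
open scoped ENNReal NNReal RealInnerProductSpace

/-- the square of the grid which contains `η` -/
private noncomputable def gr (h : ℝ) (η : E 2) : ℤ × ℤ := (⌊η 0 / h⌋, ⌊η 1 / h⌋)

private lemma gr_meas (h : ℝ) : Measurable (gr h) := by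
  have h0 : Measurable fun η : E 2 => η 0 / h := by fun_prop
  have h1 : Measurable fun η : E 2 => η 1 / h := by fun_prop
  exact h0.floor.prodMk h1.floor

private lemma gr_close (h : ℝ) (hh : 0 < h) (η η' : E 2) (he : gr h η = gr h η') :
    ‖η - η'‖ ≤ 2 * h := by
  have key : ∀ a b : ℝ, ⌊a / h⌋ = ⌊b / h⌋ → |a - b| ≤ h := by
    intro a b hab
    have h1 := Int.abs_sub_lt_one_of_floor_eq_floor hab
    rw [← sub_div, abs_div, abs_of_pos hh, div_lt_one hh] at h1
    exact h1.le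
  simp only [gr, Prod.mk.injEq] at he
  have h0 := key _ _ he.1
  have h1 := key _ _ he.2
  rw [EuclideanSpace.norm_eq, Fin.sum_univ_two]
  apply Real.sqrt_le_iff.mpr
  constructor
  · positivity
  · simp only [PiLp.sub_apply, Real.norm_eq_abs]
    nlinarith [abs_nonneg (η 0 - η' 0), abs_nonneg (η 1 - η' 1)]

private lemma cor_le (η : E 2) (j : Fin 2) : |η j| ≤ ‖η‖ := by
  have := PiLp.norm_apply_le η j
  simpa using this

private lemma gr_mem (h : ℝ) (hh : 0 < h) (η : E 2) (hη : ‖η‖ ≤ 13) (M : ℕ)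
    (hM : 13 / h + 1 ≤ M) :
    gr h η ∈ Finset.Icc (-(M : ℤ)) M ×ˢ Finset.Icc (-(M : ℤ)) M := by
  have key : ∀ a : ℝ, |a| ≤ 13 → ⌊a / h⌋ ∈ Finset.Icc (-(M : ℤ)) M := by
    intro a ha
    have h1 : |a / h| ≤ 13 / h := by
      rw [abs_div, abs_of_pos hh]
      gcongr
    rw [abs_le] at h1
    rw [Finset.mem_Icc]
    constructor
    · apply Int.le_floor.mpr
      push_cast
      linarith [h1.1]
    · have h2 := Int.floor_le (a / h)
      have h3 : ((⌊a / h⌋ : ℤ) : ℝ) ≤ ((M : ℤ) : ℝ) := by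
        push_cast
        linarith [h1.2]
      exact_mod_cast h3
  simp only [gr, Finset.mem_product]
  exact ⟨key _ ((cor_le η 0).trans hη), key _ ((cor_le η 1).trans hη)⟩

private lemma rpow_sum_le {ι : Type*} (F : Finset ι) (f : ι → ℝ≥0∞) :
    (∑ k ∈ F, f k) ^ (1 / 3 : ℝ) ≤ ∑ k ∈ F, f k ^ (1 / 3 : ℝ) := by
  classical
  induction F using Finset.induction_on with
  | empty => simp
  | insert a s ha ih =>
    rw [Finset.sum_insert ha, Finset.sum_insert ha]
    exact (ENNReal.rpow_add_le_add_rpow _ _ (by norm_num) (by norm_num)).trans (by gcongr)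

private lemma meas_TZ (W : ℝ) (μ : Measure (Z 2 × E 2)) [IsFiniteMeasure μ] :
    Measurable fun z => μ (TZ W z) := by
  have hcl : IsClosed {q : Z 2 × (Z 2 × E 2) |
      ‖q.1 - q.2.1 - (q.1.2.2 - q.2.1.2.2) • Dv q.2.2‖ ≤ W} := by
    apply isClosed_le _ continuous_const
    unfold Dv
    fun_prop
  exact measurable_measure_prodMk_left hcl.measurableSet

theorem pf_MKA (hMKC : T_MKC) (hIN1 : Pool.Agent.H22.G4.T_IN1) : T_MKA := by
  intro ε hε
  obtain ⟨δ, C, E₁, hδ, hδ1, hC, hE, hmain⟩ := hMKC ε hε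
  refine ⟨C * 2 ^ E₁ * (213 / δ) ^ 8, E₁ + 16, by positivity, by linarith, ?_⟩
  intro K N W z₀ c ν _ hK hN hW hc hInd hν
  have hK0 : 0 < K := by linarith
  obtain ⟨h, hh⟩ : ∃ h : ℝ, h = δ / (8 * K ^ 2) := ⟨_, rfl⟩
  have hh0 : 0 < h := by rw [hh]; positivity
  obtain ⟨M, hM⟩ : ∃ M : ℕ, M = ⌈13 / h⌉₊ + 1 := ⟨_, rfl⟩
  have hM1 : 13 / h + 1 ≤ M := by
    rw [hM]
    push_cast
    have := Nat.le_ceil (13 / h)
    linarith
  have hM2 : (M : ℝ) ≤ 13 / h + 2 := by
    rw [hM]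
    push_cast
    have := (Nat.ceil_lt_add_one (show 0 ≤ 13 / h by positivity)).le
    linarith
  obtain ⟨F, hF⟩ : ∃ F : Finset (ℤ × ℤ),
      F = Finset.Icc (-(M : ℤ)) M ×ˢ Finset.Icc (-(M : ℤ)) M := ⟨_, rfl⟩
  have hFc : (F.card : ℝ) ≤ (213 / δ) ^ 2 * K ^ 4 := by
    have h1 : F.card = (2 * M + 1) * (2 * M + 1) := by
      rw [hF, Finset.card_product, Int.card_Icc]
      have : ((M : ℤ) + 1 - -(M : ℤ)).toNat = 2 * M + 1 := by omega
      rw [this]
    have h2 : (2 * (M : ℝ) + 1) ≤ 213 / δ * K ^ 2 := by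
      have h3 : 13 / h = 104 / δ * K ^ 2 := by
        rw [hh]
        field_simp
        norm_num
      have h4 : 1 ≤ 1 / δ * K ^ 2 := by
        have h5 : 1 ≤ 1 / δ := by
          rw [le_div_iff₀ hδ]
          linarith
        nlinarith
      have h5 : 213 / δ * K ^ 2 = 2 * (104 / δ * K ^ 2) + 5 * (1 / δ * K ^ 2) := by ring
      rw [h5, ← h3]
      linarith
    rw [h1]
    push_cast
    have h3 : (0 : ℝ) ≤ 2 * (M : ℝ) + 1 := by positivity
    calc (2 * (M : ℝ) + 1) * (2 * (M : ℝ) + 1) ≤ (213 / δ * K ^ 2) * (213 / δ * K ^ 2) :=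
          mul_le_mul h2 h2 h3 (h3.trans h2)
      _ = _ := by ring
  have hr0 : 0 ≤ 1 / (100 * K) := by positivity
  have hr1 : 1 / (100 * K) ≤ 1 := by
    rw [div_le_one (by positivity)]
    linarith
  -- centres
  have hc' : ∀ i (k : ℤ × ℤ), ∃ η : E 2, ‖η - c i‖ ≤ 1 / (100 * K) ∧
      ∀ η' : E 2, gr h η' = k → ‖η' - c i‖ ≤ 1 / (100 * K) → gr h η = k := by
    intro i k
    by_cases hex : ∃ η' : E 2, gr h η' = k ∧ ‖η' - c i‖ ≤ 1 / (100 * K)
    · obtain ⟨η', h1, h2⟩ := hex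
      exact ⟨η', h2, fun _ _ _ => h1⟩
    · refine ⟨c i, ?_, fun η' h1 h2 => absurd ⟨η', h1, h2⟩ hex⟩
      rw [sub_self, norm_zero]
      exact hr0
  choose c' hc'1 hc'2 using hc'
  -- pieces
  obtain ⟨Pc, hPc⟩ : ∃ Pc : ℤ × ℤ → Set (Z 2 × E 2), ∀ k p, p ∈ Pc k ↔ gr h p.2 = k :=
    ⟨fun k => {p | gr h p.2 = k}, fun _ _ => Iff.rfl⟩
  have hPm : ∀ k, MeasurableSet (Pc k) := by
    intro k
    have h1 : Pc k = (fun p : Z 2 × E 2 => gr h p.2) ⁻¹' {k} := by
      ext p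
      rw [hPc]
      rfl
    rw [h1]
    exact ((gr_meas h).comp measurable_snd) (measurableSet_singleton k)
  -- decomposition
  have hdec : ∀ i z, ν i (TZ W z) ≤ ∑ k ∈ F, (ν i).restrict (Pc k) (TZ W z) := by
    intro i z
    have h1 : ν i (TZ W z) ≤ ν i (⋃ k ∈ F, (TZ W z ∩ Pc k)) := by
      apply measure_mono_ae
      filter_upwards [hν i] with p hp hpz
      have h2 : ‖p.2‖ ≤ 13 := by
        have h3 : ‖p.2‖ ≤ ‖p.2 - c i‖ + ‖c i‖ := by
          have := norm_add_le (p.2 - c i) (c i)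
          rwa [sub_add_cancel] at this
        linarith [hc i]
      have h3 := gr_mem h hh0 p.2 h2 M hM1
      rw [← hF] at h3
      exact Set.mem_biUnion h3 ⟨hpz, (hPc _ _).mpr rfl⟩
    refine h1.trans ((measure_biUnion_finset_le _ _).trans ?_)
    apply Finset.sum_le_sum
    intro k _
    rw [Measure.restrict_apply' (hPm k)]
  -- each piece
  obtain ⟨U, hU⟩ : ∃ U : ℝ≥0∞, U = ∏ i, ν i univ ^ (1 / 3 : ℝ) := ⟨_, rfl⟩
  rw [← hU]
  have hpiece : ∀ k : Fin 4 → ℤ × ℤ,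
      ∫⁻ z in {z | ‖z - z₀‖ ≤ N}, ∏ i, (ν i).restrict (Pc (k i)) (TZ W z) ^ (1 / 3 : ℝ) ≤
        ENNReal.ofReal (C * (2 * K) ^ E₁ * W ^ E₁ * N ^ ε) * U := by
    intro k
    have h1 := hmain (2 * K) N W z₀ (fun i => c' i (k i)) (fun i => (ν i).restrict (Pc (k i)))
      (by linarith) hN hW ?_ ?_ ?_
    · refine h1.trans ?_
      rw [hU]
      gcongr
      exact Measure.restrict_le_self
    · intro i
      have h3 : ‖c' i (k i)‖ ≤ ‖c' i (k i) - c i‖ + ‖c i‖ := by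
        have := norm_add_le (c' i (k i) - c i) (c i)
        rwa [sub_add_cancel] at this
      have := hc'1 i (k i)
      have := hc i
      linarith
    · have h2 := hIN1 2 4 K⁻¹ 13 (1 / (100 * K)) c (fun i => c' i (k i)) (by norm_num) hr0
        (fun i => by linarith [hc i]) (fun i => by
          have h3 : ‖c' i (k i)‖ ≤ ‖c' i (k i) - c i‖ + ‖c i‖ := by
            have := norm_add_le (c' i (k i) - c i) (c i)
            rwa [sub_add_cancel] at this
          have := hc'1 i (k i)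
          have := hc i
          linarith) (fun i => by
          rw [norm_sub_rev]
          exact hc'1 i (k i)) hInd
      intro a
      refine le_trans ?_ (h2 a)
      apply mul_le_mul_of_nonneg_right _ (Finset.sum_nonneg fun i _ => abs_nonneg _)
      have h3 : K⁻¹ - (2 * 13 + 1) * (1 / (100 * K)) = 73 / 100 * K⁻¹ := by
        field_simp
        norm_num
      have h4 : (2 * K)⁻¹ = 1 / 2 * K⁻¹ := by
        field_simp
      rw [h3, h4]
      have : 0 < K⁻¹ := inv_pos.mpr hK0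
      linarith
    · intro i
      have h2 : ∀ᵐ p ∂(ν i).restrict (Pc (k i)), p ∈ Pc (k i) := ae_restrict_mem (hPm _)
      have h3 : ∀ᵐ p ∂(ν i).restrict (Pc (k i)), ‖p.2 - c i‖ ≤ 1 / (100 * K) :=
        ae_restrict_of_ae (hν i)
      filter_upwards [h2, h3] with p hp1 hp2
      rw [hPc] at hp1
      have h4 := hc'2 i (k i) p.2 hp1 hp2
      have h5 := gr_close h hh0 p.2 (c' i (k i)) (hp1.trans h4.symm)
      have h6 : 2 * h = δ / (2 * K) ^ 2 := by
        rw [hh]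
        field_simp
        norm_num
      rw [← h6]
      exact h5
  -- the sum
  have hprod : ∀ z, ∏ i, ν i (TZ W z) ^ (1 / 3 : ℝ) ≤
      ∑ k ∈ Fintype.piFinset (fun _ : Fin 4 => F),
        ∏ i, (ν i).restrict (Pc (k i)) (TZ W z) ^ (1 / 3 : ℝ) := by
    intro z
    calc ∏ i, ν i (TZ W z) ^ (1 / 3 : ℝ)
        ≤ ∏ i, ∑ k ∈ F, (ν i).restrict (Pc k) (TZ W z) ^ (1 / 3 : ℝ) := by
          apply Finset.prod_le_prod'
          intro i _
          exact (ENNReal.rpow_le_rpow (hdec i z) (by norm_num)).trans (rpow_sum_le _ _)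
      _ = _ := Finset.prod_univ_sum (fun _ : Fin 4 => F)
          (fun i k => (ν i).restrict (Pc k) (TZ W z) ^ (1 / 3 : ℝ))
  calc ∫⁻ z in {z | ‖z - z₀‖ ≤ N}, ∏ i, ν i (TZ W z) ^ (1 / 3 : ℝ)
      ≤ ∫⁻ z in {z | ‖z - z₀‖ ≤ N}, ∑ k ∈ Fintype.piFinset (fun _ : Fin 4 => F),
        ∏ i, (ν i).restrict (Pc (k i)) (TZ W z) ^ (1 / 3 : ℝ) := lintegral_mono hprod
    _ = ∑ k ∈ Fintype.piFinset (fun _ : Fin 4 => F), ∫⁻ z in {z | ‖z - z₀‖ ≤ N},
        ∏ i, (ν i).restrict (Pc (k i)) (TZ W z) ^ (1 / 3 : ℝ) := by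
        rw [lintegral_finsetSum]
        intro k _
        apply Finset.measurable_fun_prod
        intro i _
        exact (meas_TZ W _).pow_const _
    _ ≤ ∑ _k ∈ Fintype.piFinset (fun _ : Fin 4 => F),
        ENNReal.ofReal (C * (2 * K) ^ E₁ * W ^ E₁ * N ^ ε) * U :=
        Finset.sum_le_sum fun k _ => hpiece k
    _ = ENNReal.ofReal ((F.card : ℝ) ^ 4 * (C * (2 * K) ^ E₁ * W ^ E₁ * N ^ ε)) * U := by
        have h1 : ((F.card ^ 4 : ℕ) : ℝ≥0∞) = ENNReal.ofReal ((F.card : ℝ) ^ 4) := by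
          rw [ENNReal.ofReal_pow (by positivity), ENNReal.ofReal_natCast]
          push_cast
          rfl
        rw [Finset.sum_const, Fintype.card_piFinset_const, nsmul_eq_mul, h1, ← mul_assoc,
          ← ENNReal.ofReal_mul (by positivity)]
    _ ≤ _ := by
        apply mul_le_mul_left
        apply ENNReal.ofReal_le_ofReal
        have h1 : (F.card : ℝ) ^ 4 ≤ (213 / δ) ^ 8 * K ^ 16 := by
          calc (F.card : ℝ) ^ 4 ≤ ((213 / δ) ^ 2 * K ^ 4) ^ 4 := by gcongr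
            _ = _ := by ring
        have h2 : (2 * K) ^ E₁ = 2 ^ E₁ * K ^ E₁ := Real.mul_rpow (by norm_num) hK0.le
        have h3 : K ^ (E₁ + 16) = K ^ E₁ * K ^ 16 := by
          rw [Real.rpow_add hK0]
          congr 1
          rw [← Real.rpow_natCast]
          norm_num
        have h4 : W ^ E₁ ≤ W ^ (E₁ + 16) := Real.rpow_le_rpow_of_exponent_le hW (by linarith)
        have hN0 : 0 < N := by linarith
        have hW0 : 0 < W := by linarith
        rw [h2, h3]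
        calc (F.card : ℝ) ^ 4 * (C * (2 ^ E₁ * K ^ E₁) * W ^ E₁ * N ^ ε)
            ≤ ((213 / δ) ^ 8 * K ^ 16) * (C * (2 ^ E₁ * K ^ E₁) * W ^ (E₁ + 16) * N ^ ε) := by
              gcongr
          _ = _ := by ring

end Pool.Agent.H68.FP
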